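import Pool.Agent.Helper38_Strip.Statements

/-!
# MP_cd3e9c_pr, modules FOUR and FOUR2: Fourier formulas
-/

namespace Pool.Agent.Helper38_Strip.H33

open Finset Real MeasureTheory intervalIntegral

/-! ### Elementary facts on the coefficients -/

theorem Qn_zero (x : ℝ) (m : ℤ) : Qn x 0 m = if m = 1 then 1 else if m = -1 then -1 else 0 := rfl

theorem Qn_succ (x : ℝ) (n : ℕ) (m : ℤ) : Qn x (n + 1) m =
    (1 + x ^ 2) * Qn x n m + x * Qn x n (m + 1) + x * Qn x n (m - 1) := rfl

theorem Qn_neg (x : ℝ) : ∀ (n : ℕ) (m : ℤ), Qn x n (-m) = -Qn x n m := by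
  intro n
  induction n with
  | zero =>
    intro m
    rw [Qn_zero, Qn_zero]
    by_cases h1 : m = 1
    · subst h1; norm_num
    · by_cases h2 : m = -1
      · subst h2; norm_num
      · rw [if_neg (by omega), if_neg (by omega), if_neg h1, if_neg h2]; norm_num
  | succ n ih =>
    intro m
    rw [Qn_succ, Qn_succ, ih]
    have h1 : -m + 1 = -(m - 1) := by ring
    have h2 : -m - 1 = -(m + 1) := by ring
    rw [h1, h2, ih, ih]
    ring

theorem Qn_supp (x : ℝ) : ∀ (n : ℕ) (m : ℤ), (n : ℤ) + 1 < |m| → Qn x n m = 0 := by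
  intro n
  induction n with
  | zero =>
    intro m hm
    rw [Qn_zero]
    have h1 : m ≠ 1 := by rintro rfl; norm_num at hm
    have h2 : m ≠ -1 := by rintro rfl; norm_num at hm
    rw [if_neg h1, if_neg h2]
  | succ n ih =>
    intro m hm
    push_cast at hm
    rw [Qn_succ, ih m (by linarith), ih (m + 1), ih (m - 1)]
    · ring
    · have := abs_sub_abs_le_abs_sub m 1
      rw [abs_one] at this
      linarith
    · have := abs_sub_abs_le_abs_sub m (-1)
      rw [abs_neg, abs_one, sub_neg_eq_add] at this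
      linarith

theorem Qn_supp_finite (x : ℝ) (n : ℕ) (f : ℤ → ℝ) :
    (Function.support fun m : ℤ => Qn x n m * f m) ⊆ ↑(Icc (-(n : ℤ) - 1) (n + 1)) := by
  intro m hm
  by_contra h
  apply hm
  simp only [coe_Icc, Set.mem_Icc, not_and_or, not_le] at h
  have : (n : ℤ) + 1 < |m| := by
    rcases h with h | h
    · have := neg_abs_le m
      linarith
    · exact lt_of_lt_of_le h (le_abs_self m)
  simp [Qn_supp x n m this]

/-- pairing of the coefficients with a function -/
noncomputable def PQ (x : ℝ) (n : ℕ) (f : ℤ → ℝ) : ℝ :=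
  ∑ m ∈ Icc (-(n : ℤ) - 1) (n + 1), Qn x n m * f m

theorem PQ_eq (x : ℝ) (n : ℕ) (f : ℤ → ℝ) : PQ x n f = ∑' m : ℤ, Qn x n m * f m := by
  unfold PQ
  rw [tsum_eq_sum]
  intro m hm
  by_contra h
  exact hm (by simpa using Qn_supp_finite x n f h)

theorem PQ_summable (x : ℝ) (n : ℕ) (f : ℤ → ℝ) : Summable fun m : ℤ => Qn x n m * f m :=
  summable_of_hasFiniteSupport ((finite_toSet _).subset (Qn_supp_finite x n f))

theorem PQ_succ (x : ℝ) (n : ℕ) (f : ℤ → ℝ) :
    PQ x (n + 1) f = (1 + x ^ 2) * PQ x n f + x * PQ x n (fun m => f (m - 1)) +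
      x * PQ x n (fun m => f (m + 1)) := by
  have e1 : (∑' m : ℤ, Qn x n (m + 1) * f m) = ∑' m : ℤ, Qn x n m * f (m - 1) := by
    rw [← (Equiv.addRight (1 : ℤ)).tsum_eq (fun m : ℤ => Qn x n m * f (m - 1))]
    apply tsum_congr
    intro m
    simp
  have e2 : (∑' m : ℤ, Qn x n (m - 1) * f m) = ∑' m : ℤ, Qn x n m * f (m + 1) := by
    rw [← (Equiv.subRight (1 : ℤ)).tsum_eq (fun m : ℤ => Qn x n m * f (m + 1))]
    apply tsum_congr
    intro m
    simp
  have s1 : Summable fun m : ℤ => Qn x n (m + 1) * f m := by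
    have := (Equiv.addRight (1 : ℤ)).summable_iff.2 (PQ_summable x n (fun m => f (m - 1)))
    refine this.congr ?_
    intro m
    simp
  have s2 : Summable fun m : ℤ => Qn x n (m - 1) * f m := by
    have := (Equiv.subRight (1 : ℤ)).summable_iff.2 (PQ_summable x n (fun m => f (m + 1)))
    refine this.congr ?_
    intro m
    simp
  rw [PQ_eq, PQ_eq, PQ_eq, PQ_eq, ← e1, ← e2, ← tsum_mul_left, ← tsum_mul_left, ← tsum_mul_left,
    ← Summable.tsum_add ((PQ_summable x n f).mul_left _) (s1.mul_left _),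
    ← Summable.tsum_add (((PQ_summable x n f).mul_left _).add (s1.mul_left _)) (s2.mul_left _)]
  apply tsum_congr
  intro m
  rw [Qn_succ]
  ring

/-- the generating function -/
noncomputable def kap (x : ℝ) (θ : ℝ) : ℝ := 1 + x ^ 2 + 2 * x * cos θ

theorem PQ_sin (x : ℝ) : ∀ (n : ℕ) (θ φ : ℝ),
    PQ x n (fun m => sin (m * θ + φ)) = 2 * sin θ * kap x θ ^ n * cos φ := by
  intro n
  induction n with
  | zero =>
    intro θ φ
    have h : PQ x 0 (fun m => sin (m * θ + φ)) = sin (θ + φ) - sin (-θ + φ) := by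
      unfold PQ
      have : (Icc (-((0 : ℕ) : ℤ) - 1) (((0 : ℕ) : ℤ) + 1)) = {-1, 0, 1} := by
        decide
      rw [this, sum_insert (by decide), sum_insert (by decide), sum_singleton]
      simp [Qn_zero]
      ring
    rw [h, sin_add, sin_add, sin_neg, cos_neg]
    ring
  | succ n ih =>
    intro θ φ
    rw [PQ_succ, ih]
    have e1 : (fun m : ℤ => sin (((m - 1 : ℤ) : ℝ) * θ + φ)) =
        fun m : ℤ => sin (m * θ + (φ - θ)) := by
      funext m
      congr 1
      push_cast
      ring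
    have e2 : (fun m : ℤ => sin (((m + 1 : ℤ) : ℝ) * θ + φ)) =
        fun m : ℤ => sin (m * θ + (φ + θ)) := by
      funext m
      congr 1
      push_cast
      ring
    rw [e1, e2, ih, ih, cos_add, cos_sub, pow_succ]
    unfold kap
    ring

theorem PQ_cos (x : ℝ) (n : ℕ) (θ φ : ℝ) :
    PQ x n (fun m => m * cos (m * θ + φ)) =
      (2 * cos θ * kap x θ ^ n - 4 * n * x * sin θ ^ 2 * kap x θ ^ (n - 1)) * cos φ := by
  -- differentiate PQ_sin in the first variable
  have h1 : HasDerivAt (fun θ : ℝ => PQ x n (fun m => sin (m * θ + φ)))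
      (PQ x n (fun m => m * cos (m * θ + φ))) θ := by
    unfold PQ
    have : ∀ m ∈ Icc (-(n : ℤ) - 1) (n + 1), HasDerivAt (fun θ : ℝ =>
        Qn x n m * sin (m * θ + φ)) (Qn x n m * (m * cos (m * θ + φ))) θ := by
      intro m _
      have h : HasDerivAt (fun θ : ℝ => Qn x n m * sin (m * θ + φ))
          (Qn x n m * (cos (m * θ + φ) * (m * 1))) θ :=
        (((hasDerivAt_id' θ).const_mul (m : ℝ)).add_const φ).sin.const_mul (Qn x n m)
      convert h using 1
      ring
    exact HasDerivAt.fun_sum this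
  have h2 : HasDerivAt (fun θ : ℝ => 2 * sin θ * kap x θ ^ n * cos φ)
      ((2 * cos θ * kap x θ ^ n - 4 * n * x * sin θ ^ 2 * kap x θ ^ (n - 1)) * cos φ) θ := by
    have hk : HasDerivAt (kap x) (2 * x * (-sin θ)) θ := by
      unfold kap
      exact ((hasDerivAt_cos θ).const_mul (2 * x)).const_add _
    have hkn : HasDerivAt (fun θ : ℝ => kap x θ ^ n)
        (n * kap x θ ^ (n - 1) * (2 * x * (-sin θ))) θ := hk.pow n
    have h : HasDerivAt (fun θ : ℝ => 2 * sin θ * kap x θ ^ n * cos φ)
        ((2 * cos θ * kap x θ ^ n + 2 * sin θ * (n * kap x θ ^ (n - 1) * (2 * x * (-sin θ)))) *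
          cos φ) θ := (((hasDerivAt_sin θ).const_mul 2).mul hkn).mul_const (cos φ)
    convert h using 1
    ring
  have h3 : (fun θ : ℝ => PQ x n (fun m => sin (m * θ + φ))) =
      fun θ : ℝ => 2 * sin θ * kap x θ ^ n * cos φ := by
    funext θ
    exact PQ_sin x n θ φ
  rw [h3] at h1
  exact h1.unique h2

/-! ### Integrals -/

theorem int_cos (k : ℤ) : ∫ θ in (-π)..π, cos (k * θ) = if k = 0 then 2 * π else 0 := by
  by_cases h : k = 0
  · subst h
    simp
    ring
  · rw [if_neg h]
    have hk : (k : ℝ) ≠ 0 := by exact_mod_cast h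
    rw [intervalIntegral.integral_comp_mul_left (fun y => cos y) hk, integral_cos]
    have h1 : sin ((k : ℝ) * π) = 0 := sin_int_mul_pi k
    have h2 : sin ((k : ℝ) * -π) = 0 := by
      rw [mul_neg, sin_neg, h1, neg_zero]
    rw [h1, h2]
    simp

theorem kap_cont (x : ℝ) : Continuous (kap x) := by
  unfold kap
  fun_prop

theorem Qn_int (x : ℝ) : ∀ (n : ℕ) (m : ℤ), Qn x n m = (1 / (2 * π)) * ∫ θ in (-π)..π,
      2 * sin θ * sin (m * θ) * kap x θ ^ n := by
  intro n
  induction n with
  | zero =>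
    intro m
    have e : ∀ θ : ℝ, 2 * sin θ * sin (m * θ) * kap x θ ^ 0 =
        cos (((m - 1 : ℤ) : ℝ) * θ) - cos (((m + 1 : ℤ) : ℝ) * θ) := by
      intro θ
      have e1 : ((m - 1 : ℤ) : ℝ) * θ = m * θ - θ := by push_cast; ring
      have e2 : ((m + 1 : ℤ) : ℝ) * θ = m * θ + θ := by push_cast; ring
      rw [e1, e2, cos_sub, cos_add, pow_zero]
      ring
    simp only [e]
    rw [intervalIntegral.integral_sub
      ((by fun_prop : Continuous fun θ : ℝ => cos (((m - 1 : ℤ) : ℝ) * θ)).intervalIntegrable _ _)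
      ((by fun_prop : Continuous fun θ : ℝ => cos (((m + 1 : ℤ) : ℝ) * θ)).intervalIntegrable _ _),
      int_cos, int_cos, Qn_zero]
    have hpi := pi_ne_zero
    by_cases h1 : m = 1
    · subst h1
      norm_num
      field_simp
    · by_cases h2 : m = -1
      · subst h2
        norm_num
        field_simp
      · rw [if_neg h1, if_neg h2, if_neg (by omega), if_neg (by omega)]
        simp
  | succ n ih =>
    intro m
    rw [Qn_succ, ih, ih, ih]
    have c1 : Continuous fun θ : ℝ => 2 * sin θ * sin (m * θ) * kap x θ ^ n := by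
      have := kap_cont x
      fun_prop
    have c2 : Continuous fun θ : ℝ => 2 * sin θ * sin (((m + 1 : ℤ) : ℝ) * θ) * kap x θ ^ n := by
      have := kap_cont x
      fun_prop
    have c3 : Continuous fun θ : ℝ => 2 * sin θ * sin (((m - 1 : ℤ) : ℝ) * θ) * kap x θ ^ n := by
      have := kap_cont x
      fun_prop
    have e : ∀ θ : ℝ, 2 * sin θ * sin (m * θ) * kap x θ ^ (n + 1) =
        (1 + x ^ 2) * (2 * sin θ * sin (m * θ) * kap x θ ^ n) +
        x * (2 * sin θ * sin (((m + 1 : ℤ) : ℝ) * θ) * kap x θ ^ n) +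
        x * (2 * sin θ * sin (((m - 1 : ℤ) : ℝ) * θ) * kap x θ ^ n) := by
      intro θ
      have e1 : ((m - 1 : ℤ) : ℝ) * θ = m * θ - θ := by push_cast; ring
      have e2 : ((m + 1 : ℤ) : ℝ) * θ = m * θ + θ := by push_cast; ring
      rw [e1, e2, sin_sub, sin_add, pow_succ]
      have : kap x θ = 1 + x ^ 2 + 2 * x * cos θ := rfl
      generalize kap x θ ^ n = K
      rw [this]
      ring
    simp only [e]
    have d1 : Continuous fun θ : ℝ => (1 + x ^ 2) * (2 * sin θ * sin (m * θ) * kap x θ ^ n) :=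
      continuous_const.mul c1
    have d2 : Continuous fun θ : ℝ =>
        x * (2 * sin θ * sin (((m + 1 : ℤ) : ℝ) * θ) * kap x θ ^ n) :=
      continuous_const.mul c2
    have d3 : Continuous fun θ : ℝ =>
        x * (2 * sin θ * sin (((m - 1 : ℤ) : ℝ) * θ) * kap x θ ^ n) :=
      continuous_const.mul c3
    have d12 : Continuous fun θ : ℝ => (1 + x ^ 2) * (2 * sin θ * sin (m * θ) * kap x θ ^ n) +
        x * (2 * sin θ * sin (((m + 1 : ℤ) : ℝ) * θ) * kap x θ ^ n) := d1.add d2
    rw [intervalIntegral.integral_add (d12.intervalIntegrable _ _)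
        (d3.intervalIntegrable _ _),
      intervalIntegral.integral_add (d1.intervalIntegrable _ _) (d2.intervalIntegrable _ _),
      intervalIntegral.integral_const_mul, intervalIntegral.integral_const_mul,
      intervalIntegral.integral_const_mul]
    ring

/-- integration of a pairing against a continuous function -/
theorem PQ_int (x : ℝ) (n : ℕ) (g : ℤ → ℝ → ℝ) (hg : ∀ m, Continuous (g m)) :
    PQ x n (fun m => ∫ θ in (-π)..π, g m θ) = ∫ θ in (-π)..π, PQ x n (fun m => g m θ) := by
  unfold PQ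
  rw [intervalIntegral.integral_finsetSum]
  · apply sum_congr rfl
    intro m _
    rw [intervalIntegral.integral_const_mul]
  · intro m _
    exact ((hg m).const_smul (Qn x n m)).intervalIntegrable _ _

theorem PQ_mul_const (x : ℝ) (n : ℕ) (f : ℤ → ℝ) (a : ℝ) :
    PQ x n (fun m => a * f m) = a * PQ x n f := by
  unfold PQ
  rw [mul_sum]
  exact sum_congr rfl fun m _ => by ring

theorem parseval (x : ℝ) (n : ℕ) (j : ℤ) :
    PQ x n (fun m => Qn x n (m + j)) = (1 / (2 * π)) * ∫ θ in (-π)..π,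
        4 * sin θ ^ 2 * cos (j * θ) * kap x θ ^ (2 * n) := by
  have e : (fun m : ℤ => Qn x n (m + j)) = fun m : ℤ => (1 / (2 * π)) * ∫ θ in (-π)..π,
      2 * sin θ * kap x θ ^ n * sin (m * θ + j * θ) := by
    funext m
    rw [Qn_int]
    congr 1
    apply intervalIntegral.integral_congr
    intro θ _
    have : ((m + j : ℤ) : ℝ) * θ = m * θ + j * θ := by push_cast; ring
    simp only [this]
    ring
  rw [e, PQ_mul_const, PQ_int]
  · congr 1
    apply intervalIntegral.integral_congr
    intro θ _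
    simp only
    rw [PQ_mul_const, PQ_sin]
    ring
  · intro m
    have := kap_cont x
    fun_prop

theorem four : FourStatement := by
  intro x n
  refine ⟨?_, ?_, ?_, ?_⟩
  · intro m
    exact Qn_int x n m
  · intro m
    exact Qn_neg x n m
  · intro m hm
    exact Qn_supp x n m hm
  · intro j
    exact parseval x n j

/-! ### FOUR2 -/

/-- derivative of the generating function -/
noncomputable def du (x : ℝ) (n : ℕ) (θ : ℝ) : ℝ :=
  2 * cos θ * kap x θ ^ n - 4 * n * x * sin θ ^ 2 * kap x θ ^ (n - 1)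

theorem du_cont (x : ℝ) (n : ℕ) : Continuous (du x n) := by
  unfold du
  have := kap_cont x
  fun_prop

theorem hasDerivAt_u (x : ℝ) (n : ℕ) (θ : ℝ) :
    HasDerivAt (fun θ : ℝ => 2 * sin θ * kap x θ ^ n) (du x n θ) θ := by
  have hk : HasDerivAt (kap x) (2 * x * (-sin θ)) θ := by
    unfold kap
    exact ((hasDerivAt_cos θ).const_mul (2 * x)).const_add _
  have hkn : HasDerivAt (fun θ : ℝ => kap x θ ^ n)
      (n * kap x θ ^ (n - 1) * (2 * x * (-sin θ))) θ := hk.pow n
  have h : HasDerivAt (fun θ : ℝ => 2 * sin θ * kap x θ ^ n)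
      (2 * cos θ * kap x θ ^ n + 2 * sin θ * (n * kap x θ ^ (n - 1) * (2 * x * (-sin θ)))) θ :=
    ((hasDerivAt_sin θ).const_mul 2).mul hkn
  unfold du
  convert h using 1
  ring

theorem bQ_int (x : ℝ) (n : ℕ) (m : ℤ) : m * Qn x n m = (1 / (2 * π)) * ∫ θ in (-π)..π,
    du x n θ * cos (m * θ) := by
  have hp : ∀ θ : ℝ, HasDerivAt (fun θ : ℝ => 2 * sin θ * kap x θ ^ n * cos (m * θ))
      (du x n θ * cos (m * θ) + 2 * sin θ * kap x θ ^ n * (-(m * sin (m * θ)))) θ := by
    intro θ
    have h1 : HasDerivAt (fun θ : ℝ => cos (m * θ)) (-(m * sin (m * θ))) θ := by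
      have h : HasDerivAt (fun θ : ℝ => cos (m * θ)) (-sin (m * θ) * (m * 1)) θ :=
        ((hasDerivAt_id' θ).const_mul (m : ℝ)).cos
      convert h using 1
      ring
    exact (hasDerivAt_u x n θ).mul h1
  have c1 : Continuous fun θ : ℝ => du x n θ * cos (m * θ) := by
    have := du_cont x n
    fun_prop
  have c2 : Continuous fun θ : ℝ => 2 * sin θ * kap x θ ^ n * (-(m * sin (m * θ))) := by
    have := kap_cont x
    fun_prop
  have h := intervalIntegral.integral_eq_sub_of_hasDerivAt (a := -π) (b := π)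
    (fun θ _ => hp θ) ((c1.add c2).intervalIntegrable _ _)
  rw [intervalIntegral.integral_add (c1.intervalIntegrable _ _) (c2.intervalIntegrable _ _)] at h
  simp only [sin_pi, sin_neg, neg_zero, mul_zero, zero_mul, sub_zero] at h
  rw [Qn_int]
  have e : ∫ θ in (-π)..π, 2 * sin θ * kap x θ ^ n * (-(m * sin (m * θ))) =
      -(m * ∫ θ in (-π)..π, 2 * sin θ * sin (m * θ) * kap x θ ^ n) := by
    rw [← intervalIntegral.integral_const_mul, ← intervalIntegral.integral_neg]
    apply intervalIntegral.integral_congr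
    intro θ _
    simp only
    ring
  rw [e] at h
  have h' : (∫ θ in (-π)..π, du x n θ * cos (m * θ)) =
      m * ∫ θ in (-π)..π, 2 * sin θ * sin (m * θ) * kap x θ ^ n := by linarith
  rw [h']
  ring

theorem parseval2 (x : ℝ) (n : ℕ) (j : ℤ) :
    PQ x n (fun m => m * (((m + j : ℤ) : ℝ) * Qn x n (m + j))) =
      (1 / (2 * π)) * ∫ θ in (-π)..π, du x n θ ^ 2 * cos (j * θ) := by
  have e : (fun m : ℤ => (m : ℝ) * (((m + j : ℤ) : ℝ) * Qn x n (m + j))) =
      fun m : ℤ => (1 / (2 * π)) * ∫ θ in (-π)..π,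
      du x n θ * (m * cos (m * θ + j * θ)) := by
    funext m
    rw [bQ_int]
    have : ∀ θ : ℝ, du x n θ * (m * cos (m * θ + j * θ)) =
        m * (du x n θ * cos (((m + j : ℤ) : ℝ) * θ)) := by
      intro θ
      have : ((m + j : ℤ) : ℝ) * θ = m * θ + j * θ := by push_cast; ring
      rw [this]
      ring
    simp only [this]
    rw [intervalIntegral.integral_const_mul]
    ring
  rw [e, PQ_mul_const, PQ_int]
  · congr 1
    apply intervalIntegral.integral_congr
    intro θ _
    simp only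
    rw [PQ_mul_const, PQ_cos]
    unfold du
    ring
  · intro m
    have := du_cont x n
    fun_prop

theorem four2 : Four2Statement := by
  intro x n
  have h1 : ∑ m ∈ Icc (-(n : ℤ) - 1) (n + 1),
      (m : ℝ) ^ 2 * (Qn x n m ^ 2 - Qn x n (m - 1) * Qn x n (m + 1)) =
      (∑' m : ℤ, Qn x n m * (m * (m * Qn x n m))) -
        ∑' m : ℤ, Qn x n (m - 1) * ((m : ℝ) ^ 2 * Qn x n (m + 1)) := by
    have hs1 := PQ_summable x n (fun m => (m : ℝ) * (m * Qn x n m))
    have hs2 : Summable fun m : ℤ => Qn x n (m - 1) * ((m : ℝ) ^ 2 * Qn x n (m + 1)) := by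
      have := (Equiv.subRight (1 : ℤ)).summable_iff.2
        (PQ_summable x n (fun m => ((m + 1 : ℤ) : ℝ) ^ 2 * Qn x n (m + 1 + 1)))
      refine this.congr ?_
      intro m
      simp
    rw [← Summable.tsum_sub hs1 hs2, tsum_eq_sum (s := Icc (-(n : ℤ) - 1) (n + 1))]
    · apply sum_congr rfl
      intro m _
      ring
    · intro m hm
      have hm' : (n : ℤ) + 1 < |m| := by
        simp only [mem_Icc, not_and_or, not_le] at hm
        rcases hm with h | h
        · have := neg_abs_le m
          linarith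
        · exact lt_of_lt_of_le h (le_abs_self m)
      rw [Qn_supp x n m hm']
      have : Qn x n (m - 1) * Qn x n (m + 1) = 0 := by
        rcases le_or_gt 0 m with h | h
        · rw [Qn_supp x n (m + 1), mul_zero]
          rw [abs_of_nonneg h] at hm'
          rw [abs_of_nonneg (by linarith)]
          linarith
        · rw [Qn_supp x n (m - 1), zero_mul]
          rw [abs_of_neg h] at hm'
          rw [abs_of_neg (by linarith)]
          linarith
      have e2 : Qn x n (m - 1) * ((m : ℝ) ^ 2 * Qn x n (m + 1)) =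
          (m : ℝ) ^ 2 * (Qn x n (m - 1) * Qn x n (m + 1)) := by ring
      rw [e2, this]
      ring
  have h2 : (∑' m : ℤ, Qn x n (m - 1) * ((m : ℝ) ^ 2 * Qn x n (m + 1))) =
      PQ x n (fun m => m * (((m + 2 : ℤ) : ℝ) * Qn x n (m + 2))) +
        PQ x n (fun m => Qn x n (m + 2)) := by
    rw [PQ_eq, PQ_eq, ← Summable.tsum_add (PQ_summable x n _) (PQ_summable x n _)]
    rw [← (Equiv.addRight (1 : ℤ)).tsum_eq
      (fun m : ℤ => Qn x n (m - 1) * ((m : ℝ) ^ 2 * Qn x n (m + 1)))]
    apply tsum_congr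
    intro m
    simp only [Equiv.coe_addRight, add_sub_cancel_right]
    have : m + 1 + 1 = m + 2 := by ring
    rw [this]
    push_cast
    ring
  have h3 : (∑' m : ℤ, Qn x n m * (m * (m * Qn x n m))) =
      PQ x n (fun m => m * (((m + 0 : ℤ) : ℝ) * Qn x n (m + 0))) := by
    rw [PQ_eq]
    simp
  rw [h1, h2, h3, parseval2, parseval2, parseval, ← mul_add, ← mul_sub]
  congr 1
  have c0 := du_cont x n
  have ck := kap_cont x
  rw [← intervalIntegral.integral_add, ← intervalIntegral.integral_sub]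
  · apply intervalIntegral.integral_congr
    intro θ _
    simp only
    have hd : du x n θ = 2 * cos θ * (1 + x ^ 2 + 2 * x * cos θ) ^ n -
        4 * n * x * sin θ ^ 2 * (1 + x ^ 2 + 2 * x * cos θ) ^ (n - 1) := rfl
    have hk : kap x θ = 1 + x ^ 2 + 2 * x * cos θ := rfl
    rw [← hd, ← hk]
    have e0 : ((0 : ℤ) : ℝ) * θ = 0 := by simp
    have e2 : ((2 : ℤ) : ℝ) * θ = 2 * θ := by norm_num
    rw [e0, e2, cos_zero]
    have e3 : 2 * sin θ ^ 2 = 1 - cos (2 * θ) := by
      rw [cos_two_mul, sin_sq]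
      ring
    rw [e3]
    ring
  · apply Continuous.intervalIntegrable
    fun_prop
  · apply Continuous.intervalIntegrable
    fun_prop
  · apply Continuous.intervalIntegrable
    fun_prop
  · apply Continuous.intervalIntegrable
    fun_prop

end Pool.Agent.Helper38_Strip.H33
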