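import Pool.Agent.Helper33_Strip.Updh

/-!
# MP_cd3e9c_pr, module STAT: stationarity (matrix ansatz)
-/

namespace Pool.Agent.Helper38_Strip.H33

open Finset

/-! ### Transfer operators -/

/-- transfer operator of one step; `e` says whether the step is an up step, `b` whether it is
occupied in the first profile -/
noncomputable def op (x : ℝ) (e b : Bool) (f : ℕ → ℝ) : ℕ → ℝ := fun d =>
  match e, b with
  | true, true => x * f (d + 1) + x ^ 2 * f d
  | true, false => f d + x * (if d = 0 then 0 else f (d - 1))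
  | false, true => x * (if d = 0 then 0 else f (d - 1)) + x ^ 2 * f d
  | false, false => f d + x * f (d + 1)

/-- weight of the rest of the pair started at distance `d` -/
noncomputable def G (x : ℝ) : (N : ℕ) → ℕ → Conf N → ℕ → ℝ
  | 0, _, _ => fun d => if d = 0 then 1 else 0
  | N + 1, t, c => op x (decide (t % 2 = 0)) (c 0) (G x N (t + 1) (fun i => c i.succ))

/-! ### Relation with the pair weight -/

/-- pair weight with a starting distance -/
noncomputable def pwa {N : ℕ} (x : ℝ) (t : ℕ) (a : ℤ) (c d : Conf N) : ℝ :=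
  if (∀ m ≤ N, ht t d m ≤ ht t c m + a) ∧ ht t c N + a = ht t d N then x ^ (occ c + occ d) else 0

theorem pwa_neg {N : ℕ} (x : ℝ) (t : ℕ) {a : ℤ} (ha : a < 0) (c d : Conf N) :
    pwa x t a c d = 0 := by
  unfold pwa
  rw [if_neg]
  rintro ⟨h, -⟩
  have := h 0 (Nat.zero_le N)
  rw [ht_zero, ht_zero] at this
  omega

theorem cb_cons_zero {N : ℕ} (a : Bool) (c : Conf N) :
    cb (Fin.cons a c : Conf (N + 1)) 0 = a := by
  simp [cb]

theorem cb_cons_succ {N : ℕ} (a : Bool) (c : Conf N) (i : ℕ) :
    cb (Fin.cons a c : Conf (N + 1)) (i + 1) = cb c i := by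
  unfold cb
  by_cases h : i < N
  · rw [dif_pos h, dif_pos (by omega)]
    exact Fin.cons_succ (α := fun _ => Bool) a c ⟨i, h⟩
  · rw [dif_neg h, dif_neg (by omega)]

theorem sg_shift (t i : ℕ) : sg t (i + 1) = sg (t + 1) i := by
  unfold sg
  have : t + (i + 1) = t + 1 + i := by ring
  rw [this]

theorem ht_cons {N : ℕ} (t : ℕ) (a : Bool) (c : Conf N) (m : ℕ) :
    ht t (Fin.cons a c : Conf (N + 1)) (m + 1) =
      (if a = true then sg t 0 else 0) + ht (t + 1) c m := by
  induction m with
  | zero =>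
    rw [ht_succ, ht_zero, ht_zero, cb_cons_zero]
    ring
  | succ m ih =>
    rw [ht_succ, ih, cb_cons_succ, sg_shift, ht_succ (t + 1) c m, add_assoc]

theorem occ_cons {N : ℕ} (a : Bool) (c : Conf N) :
    occ (Fin.cons a c : Conf (N + 1)) = (if a = true then 1 else 0) + occ c := by
  have e : ∀ (M : ℕ) (c : Conf M), occ c = ∑ i : Fin M, if c i = true then 1 else 0 := by
    intro M c
    unfold occ
    rw [Finset.card_filter]
  rw [e, e, Fin.sum_univ_succ]
  simp

theorem pwa_cons {N : ℕ} (x : ℝ) (t : ℕ) {a : ℤ} (ha : 0 ≤ a) (b e : Bool) (c d : Conf N) :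
    pwa x t a (Fin.cons b c : Conf (N + 1)) (Fin.cons e d : Conf (N + 1)) =
      x ^ ((if b = true then 1 else 0) + (if e = true then 1 else 0)) *
        pwa x (t + 1) (a + (if b = true then sg t 0 else 0) - (if e = true then sg t 0 else 0))
          c d := by
  unfold pwa
  have hc : ((∀ m ≤ N + 1, ht t (Fin.cons e d : Conf (N + 1)) m ≤
      ht t (Fin.cons b c : Conf (N + 1)) m + a) ∧
      ht t (Fin.cons b c : Conf (N + 1)) (N + 1) + a =
        ht t (Fin.cons e d : Conf (N + 1)) (N + 1)) ↔
      ((∀ m ≤ N, ht (t + 1) d m ≤ ht (t + 1) c m +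
        (a + (if b = true then sg t 0 else 0) - (if e = true then sg t 0 else 0))) ∧
        ht (t + 1) c N +
          (a + (if b = true then sg t 0 else 0) - (if e = true then sg t 0 else 0)) =
        ht (t + 1) d N) := by
    constructor
    · rintro ⟨h1, h2⟩
      refine ⟨?_, ?_⟩
      · intro m hm
        have := h1 (m + 1) (by omega)
        rw [ht_cons, ht_cons] at this
        linarith
      · rw [ht_cons, ht_cons] at h2
        linarith
    · rintro ⟨h1, h2⟩
      refine ⟨?_, ?_⟩
      · intro m hm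
        rcases m with _ | m
        · rw [ht_zero, ht_zero]; linarith
        · have := h1 m (by omega)
          rw [ht_cons, ht_cons]
          linarith
      · rw [ht_cons, ht_cons]
        linarith
  by_cases h : ((∀ m ≤ N, ht (t + 1) d m ≤ ht (t + 1) c m +
        (a + (if b = true then sg t 0 else 0) - (if e = true then sg t 0 else 0))) ∧
        ht (t + 1) c N +
          (a + (if b = true then sg t 0 else 0) - (if e = true then sg t 0 else 0)) =
        ht (t + 1) d N)
  · rw [if_pos (hc.2 h), if_pos h, occ_cons, occ_cons, ← pow_add]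
    congr 1
    ring
  · rw [if_neg (fun h' => h (hc.1 h')), if_neg h, mul_zero]

theorem sum_cons {N : ℕ} (F : Conf (N + 1) → ℝ) :
    ∑ c, F c = (∑ c : Conf N, F (Fin.cons true c)) + ∑ c : Conf N, F (Fin.cons false c) := by
  have h := (Equiv.sum_comp (Fin.consEquiv (fun _ : Fin (N + 1) => Bool)) F).symm
  rw [h, Fintype.sum_prod_type, Fintype.sum_bool]
  rfl

theorem sum_pwa (x : ℝ) : ∀ (N t : ℕ) (c : Conf N) (a : ℕ),
    ∑ d : Conf N, pwa x t a c d = G x N t c a := by
  intro N
  induction N with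
  | zero =>
    intro t c a
    have hu : ∀ d : Conf 0, pwa x t a c d = if a = 0 then 1 else 0 := by
      intro d
      unfold pwa
      have h0 : ∀ (e : Conf 0) (m : ℕ), m ≤ 0 → ht t e m = 0 := by
        intro e m hm
        have : m = 0 := by omega
        subst this
        exact ht_zero t e
      have ho : ∀ e : Conf 0, occ e = 0 := by
        intro e
        simp [occ]
      by_cases h : a = 0
      · rw [if_pos h, if_pos]
        · simp [ho]
        · subst h
          refine ⟨?_, ?_⟩
          · intro m hm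
            rw [h0 d m hm, h0 c m hm]
            simp
          · rw [h0 d 0 le_rfl, h0 c 0 le_rfl]
            simp
      · rw [if_neg h, if_neg]
        rintro ⟨-, h2⟩
        rw [h0 d 0 le_rfl, h0 c 0 le_rfl] at h2
        omega
    rw [sum_congr rfl (fun d _ => hu d)]
    simp [G]
  | succ N ih =>
    intro t c a
    obtain ⟨b, c', rfl⟩ : ∃ (b : Bool) (c' : Conf N), c = Fin.cons b c' :=
      ⟨c 0, fun i => c i.succ, (Fin.cons_self_tail c).symm⟩
    rw [sum_cons]
    have ha : (0 : ℤ) ≤ (a : ℤ) := by positivity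
    simp only [pwa_cons x t ha, ← mul_sum]
    have hG : G x (N + 1) t (Fin.cons b c' : Conf (N + 1)) =
        op x (decide (t % 2 = 0)) b (G x N (t + 1) c') := by
      simp [G]
    rw [hG]
    have hz : ∀ z : ℤ, z < 0 → ∑ d : Conf N, pwa x (t + 1) z c' d = 0 := by
      intro z hz
      exact sum_eq_zero fun d _ => pwa_neg x (t + 1) hz c' d
    have hm1 : ∑ d : Conf N, pwa x (t + 1) ((a : ℤ) - 1) c' d =
        if a = 0 then 0 else G x N (t + 1) c' (a - 1) := by
      by_cases h0 : a = 0
      · subst h0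
        rw [if_pos rfl]
        exact hz _ (by norm_num)
      · rw [if_neg h0, ← ih (t + 1) c' (a - 1)]
        have : ((a - 1 : ℕ) : ℤ) = (a : ℤ) - 1 := by
          have := Nat.pos_of_ne_zero h0
          omega
        rw [this]
    have hp1 : ∑ d : Conf N, pwa x (t + 1) ((a : ℤ) + 1) c' d = G x N (t + 1) c' (a + 1) := by
      rw [← ih (t + 1) c' (a + 1)]
      push_cast
      rfl
    have h00 := ih (t + 1) c' a
    by_cases ht : t % 2 = 0
    · have hs : sg t 0 = 1 := sg_even (by simpa using ht)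
      cases b
      · simp only [hs, op, ht, decide_true, Bool.false_eq_true, if_true, if_false, add_zero,
          sub_zero, h00, hm1]
        ring
      · have e1 : (a : ℤ) + 1 - 1 = a := by ring
        simp only [hs, op, ht, decide_true, Bool.false_eq_true, if_true, if_false, add_zero,
          sub_zero, e1, h00, hp1]
        ring
    · have hs : sg t 0 = -1 := sg_odd (by simpa using ht)
      cases b
      · have e1 : (a : ℤ) - -1 = a + 1 := by ring
        simp only [hs, op, ht, decide_false, Bool.false_eq_true, if_true, if_false, add_zero,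
          sub_zero, e1, h00, hp1]
        ring
      · have e1 : (a : ℤ) + -1 - -1 = a := by ring
        have e2 : (a : ℤ) + -1 = a - 1 := by ring
        have e3 : (a : ℤ) - 1 - -1 = a := by ring
        simp only [hs, op, ht, decide_false, Bool.false_eq_true, if_true, if_false, add_zero,
          sub_zero, e1, e2, e3, h00, hm1]
        ring

theorem pw_eq_pwa {N : ℕ} (x : ℝ) (t : ℕ) (c d : Conf N) : pw x t c d = pwa x t 0 c d := by
  unfold pw pwa
  simp

theorem sum_pw (x : ℝ) (N t : ℕ) (c : Conf N) : ∑ d : Conf N, pw x t c d = G x N t c 0 := by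
  rw [← sum_pwa x N t c 0]
  exact sum_congr rfl fun d _ => pw_eq_pwa x t c d

/-! ### Linearity -/

theorem op_sum {ι : Type*} (x : ℝ) (e b : Bool) (s : Finset ι) (w : ι → ℝ) (f : ι → ℕ → ℝ)
    (d : ℕ) : op x e b (fun d => ∑ i ∈ s, w i * f i d) d = ∑ i ∈ s, w i * op x e b (f i) d := by
  cases e <;> cases b <;> by_cases hd : d = 0 <;>
    simp only [op, hd, if_true, if_false, mul_zero, zero_add, add_zero, mul_sum,
      ← sum_add_distrib] <;>
    exact sum_congr rfl fun i _ => by ring

/-! ### Local relations -/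

/-- bulk relation -/
theorem bulk (x : ℝ) (f : ℕ → ℝ) (Φ : Bool → Bool → ℝ) (d : ℕ) :
    (∑ a : Bool, ∑ b : Bool, (x ^ 2 * Φ (!a && (b || true)) (!b && (a || true)) +
        (1 - x ^ 2) * Φ (!a && (b || false)) (!b && (a || false))) *
      op x false a (op x true b f) d) =
      ∑ a : Bool, ∑ b : Bool, Φ a b * op x true a (op x false b f) d := by
  simp only [Fintype.sum_bool]
  rcases d with _ | _ | d <;> simp [op] <;> ring

/-- left wall -/
theorem leftwall (x : ℝ) (f : ℕ → ℝ) (Φ : Bool → ℝ) :
    (∑ a : Bool, (x ^ 2 * Φ (!a && true) + (1 - x ^ 2) * Φ (!a && false)) *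
      op x true a f 0) = ∑ a : Bool, Φ a * op x false a f 0 := by
  simp only [Fintype.sum_bool]
  simp [op]
  ring

/-- right wall -/
theorem rightwall (x : ℝ) (Φ : Bool → ℝ) (d : ℕ) :
    (∑ a : Bool, (x ^ 2 * Φ (!a && true) + (1 - x ^ 2) * Φ (!a && false)) *
      op x false a (fun d => if d = 0 then 1 else 0) d) =
      ∑ a : Bool, Φ a * op x true a (fun d => if d = 0 then 1 else 0) d := by
  simp only [Fintype.sum_bool]
  rcases d with _ | _ | d
  · simp [op]
    ring
  · simp [op]
    ring_nf
    simp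
  · simp [op]

/-! ### The update on blocks -/

theorem rb_cons_zero {N : ℕ} (a : Bool) (o : Row N) :
    rb (Fin.cons a o : Row (N + 1)) 0 = a := by
  simp [rb]

theorem rb_cons_succ {N : ℕ} (a : Bool) (o : Row N) (i : ℕ) :
    rb (Fin.cons a o : Row (N + 1)) (i + 1) = rb o i := by
  unfold rb
  by_cases h : i < N + 1
  · rw [dif_pos h, dif_pos (by omega)]
    exact Fin.cons_succ (α := fun _ => Bool) a o ⟨i, h⟩
  · rw [dif_neg h, dif_neg (by omega)]

theorem conf_ext {N : ℕ} {c d : Conf N} (h : ∀ m < N, cb c m = cb d m) : c = d := by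
  funext i
  have := h i i.isLt
  simpa [cb, i.isLt] using this

theorem upd_cons2 {N t : ℕ} (ht : t % 2 = 1) (a b : Bool) (c : Conf N) (o0 o1 : Bool)
    (o : Row N) :
    upd t (Fin.cons a (Fin.cons b c : Conf (N + 1)) : Conf (N + 2))
      (Fin.cons o0 (Fin.cons o1 o : Row (N + 1)) : Row (N + 2)) =
    (Fin.cons (!a && (b || o1)) (Fin.cons (!b && (a || o1)) (upd (t + 2) c o) :
      Conf (N + 1)) : Conf (N + 2)) := by
  apply conf_ext
  intro m hm
  rw [cb_upd _ _ _ hm]
  rcases m with _ | _ | m
  · have h1 : ¬ (t + 0) % 2 = 0 := by omega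
    rw [if_neg h1, cb_cons_zero, cb_cons_zero, cb_cons_succ, cb_cons_zero, rb_cons_succ,
      rb_cons_zero]
  · have h1 : (t + (0 + 1)) % 2 = 0 := by omega
    rw [if_pos h1, if_neg (by omega)]
    simp only [cb_cons_zero, cb_cons_succ, rb_cons_succ, rb_cons_zero, Nat.add_sub_cancel]
  · have e : cb (Fin.cons (!a && (b || o1)) (Fin.cons (!b && (a || o1)) (upd (t + 2) c o) :
      Conf (N + 1)) : Conf (N + 2)) (m + 1 + 1) = cb (upd (t + 2) c o) m := by
      rw [cb_cons_succ, cb_cons_succ]
    rw [e, cb_upd _ _ _ (by omega : m < N)]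
    by_cases h : (t + (m + 1 + 1)) % 2 = 0
    · have h1 : (t + 2 + m) % 2 = 0 := by omega
      have h2 : m ≠ 0 := by rintro rfl; omega
      obtain ⟨k, rfl⟩ : ∃ k, m = k + 1 := ⟨m - 1, by omega⟩
      rw [if_pos h, if_pos h1, if_neg (by omega), if_neg (by omega)]
      simp only [cb_cons_succ, rb_cons_succ, Nat.add_sub_cancel]
    · have h1 : ¬ (t + 2 + m) % 2 = 0 := by omega
      rw [if_neg h, if_neg h1]
      simp only [cb_cons_succ, rb_cons_succ]

theorem upd_cons1 {N t : ℕ} (ht : t % 2 = 0) (a : Bool) (c : Conf N) (o0 : Bool)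
    (o : Row N) :
    upd t (Fin.cons a c : Conf (N + 1)) (Fin.cons o0 o : Row (N + 1)) =
    (Fin.cons (!a && o0) (upd (t + 1) c o) : Conf (N + 1)) := by
  apply conf_ext
  intro m hm
  rw [cb_upd _ _ _ hm]
  rcases m with _ | m
  · have h1 : (t + 0) % 2 = 0 := by omega
    rw [if_pos h1, if_pos rfl, cb_cons_zero, cb_cons_zero, rb_cons_zero, Bool.false_or]
  · rw [cb_cons_succ, cb_cons_succ, cb_cons_succ, cb_upd _ _ _ (by omega : m < N)]
    by_cases h : (t + (m + 1)) % 2 = 0
    · have h1 : (t + 1 + m) % 2 = 0 := by omega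
      have h2 : m ≠ 0 := by rintro rfl; omega
      obtain ⟨k, rfl⟩ : ∃ k, m = k + 1 := ⟨m - 1, by omega⟩
      rw [if_pos h, if_pos h1, if_neg (by omega), if_neg (by omega)]
      simp only [cb_cons_succ, rb_cons_succ, Nat.add_sub_cancel]
    · have h1 : ¬ (t + 1 + m) % 2 = 0 := by omega
      rw [if_neg h, if_neg h1]
      simp only [rb_cons_succ]

theorem upd_single {t : ℕ} (ht : t % 2 = 1) (a : Bool) (c : Conf 0) (o0 o1 : Bool)
    (o : Fin 0 → Bool) :
    upd t (Fin.cons a c : Conf 1) (Fin.cons o0 (Fin.cons o1 o : Row 0) : Row 1) =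
    (Fin.cons (!a && o1) c : Conf 1) := by
  apply conf_ext
  intro m hm
  rw [cb_upd _ _ _ hm]
  have hm0 : m = 0 := by omega
  subst hm0
  have h1 : ¬ (t + 0) % 2 = 0 := by omega
  rw [if_neg h1, cb_cons_zero, cb_cons_zero, cb_cons_succ, rb_cons_succ]
  have h2 : cb c 0 = false := by simp [cb]
  have h3 : rb (Fin.cons o1 o : Row 0) 0 = o1 := by simp [rb]
  rw [h2, h3, Bool.false_or]

/-! ### Row expectations -/

theorem rowP_cons {N : ℕ} (p : ℝ) (a : Bool) (o : Row N) :
    rowP p (Fin.cons a o : Row (N + 1)) = (if a = true then p else 1 - p) * rowP p o := by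
  unfold rowP
  rw [Fin.prod_univ_succ]
  simp

theorem rE_cons {N : ℕ} (p : ℝ) (F : Row (N + 1) → ℝ) :
    rE p F = p * rE p (fun o : Row N => F (Fin.cons true o)) +
      (1 - p) * rE p (fun o : Row N => F (Fin.cons false o)) := by
  unfold rE
  rw [sum_cons]
  simp only [rowP_cons, mul_sum]
  simp [mul_assoc]

theorem rE_zero (p : ℝ) (F : Row 0 → ℝ) :
    rE p F = p * F (Fin.cons true (fun i : Fin 0 => i.elim0)) +
      (1 - p) * F (Fin.cons false (fun i : Fin 0 => i.elim0)) := by
  unfold rE
  rw [sum_cons (N := 0)]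
  have h : ∀ g : Conf 0 → ℝ, ∑ c : Conf 0, g c = g (fun i => i.elim0) := by
    intro g
    rw [Fintype.sum_unique]
    exact congrArg g (Subsingleton.elim _ _)
  rw [h, h]
  simp [rowP]

theorem rE_const {N : ℕ} (p a : ℝ) : rE p (fun _ : Row N => a) = a := by
  induction N with
  | zero => rw [rE_zero]; ring
  | succ N ih => rw [rE_cons, ih]; ring

theorem rE_sum {N : ℕ} {ι : Type*} (p : ℝ) (s : Finset ι) (F : ι → Row N → ℝ) :
    rE p (fun o => ∑ i ∈ s, F i o) = ∑ i ∈ s, rE p (F i) := by
  unfold rE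
  simp only [mul_sum]
  rw [sum_comm]

/-! ### Claim A -/

theorem claimA (x : ℝ) : ∀ (N : ℕ) (t : ℕ), t % 2 = 1 → ∀ (F : Conf N → ℝ) (d : ℕ),
    ∑ c : Conf N, rE (x ^ 2) (fun o => F (upd t c o)) * G x N t c d =
      ∑ c : Conf N, F c * G x N (t + 1) c d
  | 0, t, ht => by
    intro F d
    apply sum_congr rfl
    intro c _
    have : ∀ o : Row 0, upd t c o = c := fun o => Subsingleton.elim _ _
    simp only [this, rE_const]
    rfl
  | 1, t, ht => by
    intro F d
    rw [sum_cons, sum_cons]
    have h : ∀ g : Conf 0 → ℝ, ∑ c : Conf 0, g c = g (fun i => i.elim0) := by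
      intro g
      rw [Fintype.sum_unique]
      exact congrArg g (Subsingleton.elim _ _)
    rw [h, h, h, h]
    have hE : ∀ a : Bool, rE (x ^ 2) (fun o : Row 1 => F (upd t
        (Fin.cons a (fun i : Fin 0 => i.elim0) : Conf 1) o)) =
        x ^ 2 * F (Fin.cons (!a && true) (fun i : Fin 0 => i.elim0) : Conf 1) +
        (1 - x ^ 2) * F (Fin.cons (!a && false) (fun i : Fin 0 => i.elim0) : Conf 1) := by
      intro a
      rw [rE_cons, rE_zero, rE_zero]
      simp only [upd_single ht]
      ring
    rw [hE, hE]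
    have hG1 : ∀ a : Bool, G x 1 t (Fin.cons a (fun i : Fin 0 => i.elim0) : Conf 1) =
        op x false a (fun d => if d = 0 then 1 else 0) := by
      intro a
      simp [G, ht]
    have hG2 : ∀ a : Bool, G x 1 (t + 1) (Fin.cons a (fun i : Fin 0 => i.elim0) : Conf 1) =
        op x true a (fun d => if d = 0 then 1 else 0) := by
      intro a
      have : (t + 1) % 2 = 0 := by omega
      simp [G, this]
    rw [hG1, hG1, hG2, hG2]
    have := rightwall x (fun a => F (Fin.cons a (fun i : Fin 0 => i.elim0) : Conf 1)) d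
    rw [Fintype.sum_bool, Fintype.sum_bool] at this
    exact this
  | N + 2, t, ht => by
    intro F d
    have ht2 : (t + 2) % 2 = 1 := by omega
    -- the first two steps
    have hs : ∀ H : Conf (N + 2) → ℝ, ∑ c, H c = ∑ a : Bool, ∑ b : Bool, ∑ c : Conf N,
        H (Fin.cons a (Fin.cons b c : Conf (N + 1)) : Conf (N + 2)) := by
      intro H
      rw [sum_cons, sum_cons, sum_cons, Fintype.sum_bool, Fintype.sum_bool, Fintype.sum_bool]
    rw [hs, hs]
    have hE : ∀ (a b : Bool) (c : Conf N), rE (x ^ 2) (fun o : Row (N + 2) => F (upd t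
        (Fin.cons a (Fin.cons b c : Conf (N + 1)) : Conf (N + 2)) o)) =
        x ^ 2 * rE (x ^ 2) (fun o : Row N => F (Fin.cons (!a && (b || true))
          (Fin.cons (!b && (a || true)) (upd (t + 2) c o) : Conf (N + 1)) : Conf (N + 2))) +
        (1 - x ^ 2) * rE (x ^ 2) (fun o : Row N => F (Fin.cons (!a && (b || false))
          (Fin.cons (!b && (a || false)) (upd (t + 2) c o) : Conf (N + 1)) :
            Conf (N + 2))) := by
      intro a b c
      rw [rE_cons, rE_cons, rE_cons]
      simp only [upd_cons2 ht]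
      ring
    have hG1 : ∀ (a b : Bool) (c : Conf N), G x (N + 2) t
        (Fin.cons a (Fin.cons b c : Conf (N + 1)) : Conf (N + 2)) =
        op x false a (op x true b (G x N (t + 2) c)) := by
      intro a b c
      have h1 : (t + 1) % 2 = 0 := by omega
      simp [G, ht, h1]
    have hG2 : ∀ (a b : Bool) (c : Conf N), G x (N + 2) (t + 1)
        (Fin.cons a (Fin.cons b c : Conf (N + 1)) : Conf (N + 2)) =
        op x true a (op x false b (G x N (t + 3) c)) := by
      intro a b c
      have h1 : (t + 1) % 2 = 0 := by omega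
      have h2 : (t + 1 + 1) % 2 = 1 := by omega
      simp [G, h1, h2]
    simp only [hE, hG1, hG2]
    -- use of the induction hypothesis
    have key : ∀ (a b a1 b1 : Bool),
        ∑ c : Conf N, rE (x ^ 2) (fun o : Row N => F (Fin.cons a1
          (Fin.cons b1 (upd (t + 2) c o) : Conf (N + 1)) : Conf (N + 2))) *
          op x false a (op x true b (G x N (t + 2) c)) d =
        ∑ c : Conf N, F (Fin.cons a1 (Fin.cons b1 c : Conf (N + 1)) : Conf (N + 2)) *
          op x false a (op x true b (G x N (t + 3) c)) d := by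
      intro a b a1 b1
      rw [← op_sum x false a univ _ (fun c => op x true b (G x N (t + 2) c)) d,
        ← op_sum x false a univ _ (fun c => op x true b (G x N (t + 3) c)) d]
      congr 1
      funext d1
      rw [← op_sum x true b univ _ (fun c => G x N (t + 2) c) d1,
        ← op_sum x true b univ _ (fun c => G x N (t + 3) c) d1]
      congr 1
      funext d2
      exact claimA x N (t + 2) ht2
        (fun c => F (Fin.cons a1 (Fin.cons b1 c : Conf (N + 1)) : Conf (N + 2))) d2
    have h3 : ∀ (a b : Bool), ∑ c : Conf N, (x ^ 2 * rE (x ^ 2) (fun o : Row N =>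
        F (Fin.cons (!a && (b || true))
          (Fin.cons (!b && (a || true)) (upd (t + 2) c o) : Conf (N + 1)) : Conf (N + 2))) +
        (1 - x ^ 2) * rE (x ^ 2) (fun o : Row N => F (Fin.cons (!a && (b || false))
          (Fin.cons (!b && (a || false)) (upd (t + 2) c o) : Conf (N + 1)) :
            Conf (N + 2)))) * op x false a (op x true b (G x N (t + 2) c)) d =
        ∑ c : Conf N, (x ^ 2 * F (Fin.cons (!a && (b || true))
          (Fin.cons (!b && (a || true)) c : Conf (N + 1)) : Conf (N + 2)) +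
        (1 - x ^ 2) * F (Fin.cons (!a && (b || false))
          (Fin.cons (!b && (a || false)) c : Conf (N + 1)) : Conf (N + 2))) *
          op x false a (op x true b (G x N (t + 3) c)) d := by
      intro a b
      simp only [add_mul, sum_add_distrib, mul_assoc, ← mul_sum]
      rw [key, key]
    simp only [h3]
    -- exchange the sums
    have h4 : ∀ K : Bool → Bool → Conf N → ℝ, ∑ a : Bool, ∑ b : Bool, ∑ c : Conf N, K a b c =
        ∑ c : Conf N, ∑ a : Bool, ∑ b : Bool, K a b c := by
      intro K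
      simp only [Fintype.sum_bool, sum_add_distrib]
    rw [h4, h4]
    apply sum_congr rfl
    intro c _
    exact bulk x (G x N (t + 3) c)
      (fun a b => F (Fin.cons a (Fin.cons b c : Conf (N + 1)) : Conf (N + 2))) d

theorem claimB (x : ℝ) (N : ℕ) (t : ℕ) (ht : t % 2 = 0) (F : Conf (N + 1) → ℝ) :
    ∑ c : Conf (N + 1), rE (x ^ 2) (fun o => F (upd t c o)) * G x (N + 1) t c 0 =
      ∑ c : Conf (N + 1), F c * G x (N + 1) (t + 1) c 0 := by
  have ht2 : (t + 1) % 2 = 1 := by omega
  have hs : ∀ H : Conf (N + 1) → ℝ, ∑ c, H c = ∑ a : Bool, ∑ c : Conf N,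
      H (Fin.cons a c : Conf (N + 1)) := by
    intro H
    rw [sum_cons, Fintype.sum_bool]
  rw [hs, hs]
  have hE : ∀ (a : Bool) (c : Conf N), rE (x ^ 2) (fun o : Row (N + 1) => F (upd t
      (Fin.cons a c : Conf (N + 1)) o)) =
      x ^ 2 * rE (x ^ 2) (fun o : Row N => F (Fin.cons (!a && true) (upd (t + 1) c o) :
        Conf (N + 1))) +
      (1 - x ^ 2) * rE (x ^ 2) (fun o : Row N => F (Fin.cons (!a && false)
        (upd (t + 1) c o) : Conf (N + 1))) := by
    intro a c
    rw [rE_cons]
    simp only [upd_cons1 ht]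
  have hG1 : ∀ (a : Bool) (c : Conf N), G x (N + 1) t (Fin.cons a c : Conf (N + 1)) =
      op x true a (G x N (t + 1) c) := by
    intro a c
    simp [G, ht]
  have hG2 : ∀ (a : Bool) (c : Conf N), G x (N + 1) (t + 1) (Fin.cons a c : Conf (N + 1)) =
      op x false a (G x N (t + 2) c) := by
    intro a c
    simp [G, ht2]
  simp only [hE, hG1, hG2]
  have key : ∀ (a a1 : Bool),
      ∑ c : Conf N, rE (x ^ 2) (fun o : Row N => F (Fin.cons a1 (upd (t + 1) c o) :
        Conf (N + 1))) * op x true a (G x N (t + 1) c) 0 =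
      ∑ c : Conf N, F (Fin.cons a1 c : Conf (N + 1)) *
        op x true a (G x N (t + 2) c) 0 := by
    intro a a1
    rw [← op_sum x true a univ _ (fun c => G x N (t + 1) c) 0,
      ← op_sum x true a univ _ (fun c => G x N (t + 2) c) 0]
    congr 1
    funext d2
    exact claimA x N (t + 1) ht2 (fun c => F (Fin.cons a1 c : Conf (N + 1))) d2
  have h3 : ∀ (a : Bool), ∑ c : Conf N, (x ^ 2 * rE (x ^ 2) (fun o : Row N =>
      F (Fin.cons (!a && true) (upd (t + 1) c o) : Conf (N + 1))) +
      (1 - x ^ 2) * rE (x ^ 2) (fun o : Row N => F (Fin.cons (!a && false)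
        (upd (t + 1) c o) : Conf (N + 1)))) * op x true a (G x N (t + 1) c) 0 =
      ∑ c : Conf N, (x ^ 2 * F (Fin.cons (!a && true) c : Conf (N + 1)) +
      (1 - x ^ 2) * F (Fin.cons (!a && false) c : Conf (N + 1))) *
        op x true a (G x N (t + 2) c) 0 := by
    intro a
    simp only [add_mul, sum_add_distrib, mul_assoc, ← mul_sum]
    rw [key, key]
  simp only [h3]
  rw [sum_comm, sum_comm (s := univ (α := Bool))]
  apply sum_congr rfl
  intro c _
  exact leftwall x (G x N (t + 2) c) (fun a => F (Fin.cons a c : Conf (N + 1)))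

theorem claim (x : ℝ) {N : ℕ} (hN : 1 ≤ N) (t : ℕ) (F : Conf N → ℝ) :
    ∑ c : Conf N, rE (x ^ 2) (fun o => F (upd t c o)) * G x N t c 0 =
      ∑ c : Conf N, F c * G x N (t + 1) c 0 := by
  obtain ⟨M, rfl⟩ : ∃ M, N = M + 1 := ⟨N - 1, by omega⟩
  rcases Nat.mod_two_eq_zero_or_one t with h | h
  · exact claimB x M t h F
  · exact claimA x (M + 1) t h F 0

theorem Zf_eq (x : ℝ) (t N : ℕ) : Zf x t N = ∑ c : Conf N, G x N t c 0 := by
  unfold Zf
  exact sum_congr rfl fun c _ => sum_pw x N t c

theorem Zf_succ (x : ℝ) {N : ℕ} (hN : 1 ≤ N) (t : ℕ) : Zf x (t + 1) N = Zf x t N := by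
  have h := claim x hN t (fun _ => 1)
  simp only [rE_const, one_mul] at h
  rw [Zf_eq, Zf_eq, h]

theorem stat : StatStatement := by
  intro x _ _ N t hN F
  unfold sE st
  rw [Zf_succ x hN t]
  have h := claim x hN t F
  simp only [sum_pw]
  have e1 : ∀ c : Conf N, G x N t c 0 / Zf x t N * rE (x ^ 2) (fun o => F (upd t c o)) =
      (rE (x ^ 2) (fun o => F (upd t c o)) * G x N t c 0) / Zf x t N := by
    intro c; ring
  have e2 : ∀ c : Conf N, G x N (t + 1) c 0 / Zf x t N * F c =
      (F c * G x N (t + 1) c 0) / Zf x t N := by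
    intro c; ring
  simp only [e1, e2, ← sum_div]
  rw [h]

end Pool.Agent.Helper38_Strip.H33
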