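import Pool.Agent.Helper38_Strip.Statements

/-!
# MP_cd3e9c_pr, modules UPDH and DUAL
-/

namespace Pool.Agent.Helper38_Strip.H33

open Finset

theorem ht_eq_sum {N : ℕ} (t : ℕ) (c : Conf N) (m : ℕ) :
    ht t c m = ∑ i ∈ range N, if i < m ∧ cb c i = true then sg t i else 0 := by
  unfold ht
  rw [← Fin.sum_univ_eq_sum_range (fun i => if i < m ∧ cb c i = true then sg t i else 0) N]
  apply sum_congr rfl
  intro i _
  simp [cb, i.isLt]

theorem ht_zero {N : ℕ} (t : ℕ) (c : Conf N) : ht t c 0 = 0 := by
  rw [ht_eq_sum]; simp

theorem ht_succ {N : ℕ} (t : ℕ) (c : Conf N) (m : ℕ) :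
    ht t c (m + 1) = ht t c m + if cb c m = true then sg t m else 0 := by
  rw [ht_eq_sum, ht_eq_sum, ← sub_eq_iff_eq_add', ← sum_sub_distrib]
  have h : ∀ i ∈ range N, ((if i < m + 1 ∧ cb c i = true then sg t i else 0) -
      (if i < m ∧ cb c i = true then sg t i else 0)) =
      if i = m then (if cb c m = true then sg t m else 0) else 0 := by
    intro i _
    by_cases him : i = m
    · subst him; simp
    · by_cases h1 : i < m
      · have h2 : i < m + 1 := by omega
        simp [h1, h2, him]
      · have h2 : ¬ i < m + 1 := by omega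
        simp [h1, h2, him]
  rw [sum_congr rfl h, sum_ite_eq']
  by_cases hm : m < N
  · simp [hm]
  · simp [hm, cb]

theorem sg_even {t i : ℕ} (h : (t + i) % 2 = 0) : sg t i = 1 := by simp [sg, h]

theorem sg_odd {t i : ℕ} (h : (t + i) % 2 ≠ 0) : sg t i = -1 := by simp [sg, h]

theorem cb_upd {N : ℕ} (t : ℕ) (c : Conf N) (o : Row N) {m : ℕ} (hm : m < N) :
    cb (upd t c o) m = if (t + m) % 2 = 0 then
      !(cb c m) && ((if m = 0 then false else cb c (m - 1)) || rb o m)
    else !(cb c m) && (cb c (m + 1) || rb o (m + 1)) := by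
  have h1 : cb c m = c ⟨m, hm⟩ := by simp [cb, hm]
  have h2 : cb (upd t c o) m = upd t c o ⟨m, hm⟩ := by simp [cb, hm]
  rw [h1, h2]
  rfl

/-- `b` as an integer -/
def bi (b : Bool) : ℤ := if b = true then 1 else 0

theorem ht_succ_even {N : ℕ} {t : ℕ} (c : Conf N) {m : ℕ} (h : (t + m) % 2 = 0) :
    ht t c (m + 1) = ht t c m + bi (cb c m) := by
  rw [ht_succ, sg_even h, bi]

theorem ht_succ_odd {N : ℕ} {t : ℕ} (c : Conf N) {m : ℕ} (h : (t + m) % 2 ≠ 0) :
    ht t c (m + 1) = ht t c m - bi (cb c m) := by
  rw [ht_succ, sg_odd h, bi]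
  split_ifs <;> ring

/-- right neighbour of an updated position -/
theorem ht_right {N : ℕ} {t : ℕ} (c : Conf N) {m : ℕ} (hm : m ≤ N) (h : (t + m) % 2 = 0) :
    ht t c (min (m + 1) N) = ht t c m + bi (cb c m) := by
  rcases Nat.lt_or_ge m N with h1 | h1
  · rw [min_eq_left (by omega), ht_succ_even c h]
  · have : m = N := le_antisymm hm h1
    subst this
    rw [min_eq_right (by omega)]
    simp [cb, bi]

/-- left neighbour of an updated position -/
theorem ht_left {N : ℕ} {t : ℕ} (c : Conf N) {m : ℕ} (h : (t + m) % 2 = 0) :
    ht t c (m - 1) = ht t c m + bi (if m = 0 then false else cb c (m - 1)) := by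
  rcases Nat.eq_zero_or_pos m with h1 | h1
  · subst h1; simp [bi]
  · obtain ⟨k, rfl⟩ : ∃ k, m = k + 1 := ⟨m - 1, by omega⟩
    rw [ht_succ_odd c (by omega : (t + k) % 2 ≠ 0)]
    simp

theorem updH_even {N : ℕ} {t : ℕ} (c : Conf N) (o : Row N) {m : ℕ} (hm : m ≤ N)
    (h : (t + m) % 2 = 0) :
    updH N t (ht t c) o m = ht t c m +
      bi (rb o m || ((if m = 0 then false else cb c (m - 1)) || cb c m)) := by
  unfold updH
  rw [if_pos h, ht_right c hm h, ht_left c h]
  generalize rb o m = a
  generalize (if m = 0 then false else cb c (m - 1)) = b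
  generalize cb c m = d
  cases a <;> cases b <;> cases d <;> simp [bi]

theorem updh : UpdHStatement := by
  intro N t hN c o m
  induction m with
  | zero =>
    intro _
    rw [ht_zero, add_zero]
    by_cases h : t % 2 = 0
    · rw [updH_even c o (Nat.zero_le N) (by simpa using h), ht_zero]
      unfold cur
      generalize cb c 0 = a
      generalize rb o 0 = b
      cases a <;> cases b <;> simp [bi, h]
    · unfold updH cur
      simp [h, ht_zero]
  | succ m ih =>
    intro hm
    have hm' : m ≤ N := by omega
    have ih' := ih hm'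
    have hlt : m < N := by omega
    rw [ht_succ, ← add_assoc, ih', cb_upd t c o hlt]
    by_cases h : (t + m) % 2 = 0
    · have h1 : ¬ (t + (m + 1)) % 2 = 0 := by omega
      have h2 : (t + 1 + m) % 2 ≠ 0 := by omega
      rw [updH_even c o hm' h, sg_odd h2, if_pos h]
      have h3 : updH N t (ht t c) o (m + 1) = ht t c (m + 1) := by
        unfold updH
        rw [if_neg h1]
      rw [h3, ht_succ_even c h]
      generalize rb o m = a
      generalize (if m = 0 then false else cb c (m - 1)) = b
      generalize cb c m = d
      cases a <;> cases b <;> cases d <;> simp [bi]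
    · have h1 : (t + (m + 1)) % 2 = 0 := by omega
      have h2 : (t + 1 + m) % 2 = 0 := by omega
      rw [updH_even c o hm h1, sg_even h2, if_neg h]
      have h3 : updH N t (ht t c) o m = ht t c m := by
        unfold updH
        rw [if_neg h]
      rw [h3, ht_succ_odd c h]
      have h4 : (if m + 1 = 0 then false else cb c (m + 1 - 1)) = cb c m := by simp
      rw [h4]
      generalize rb o (m + 1) = a
      generalize cb c (m + 1) = b
      generalize cb c m = d
      cases a <;> cases b <;> cases d <;> simp [bi]

theorem le_mx {N : ℕ} (f : ℕ → ℤ) {m : ℕ} (hm : m ≤ N) : f m ≤ mx N f := by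
  unfold mx
  exact le_sup' f (mem_range.2 (by omega))

theorem mx_le {N : ℕ} {f : ℕ → ℤ} {a : ℤ} (h : ∀ m ≤ N, f m ≤ a) : mx N f ≤ a := by
  unfold mx
  apply sup'_le
  intro m hm
  exact h m (by have := mem_range.1 hm; omega)

theorem mx_congr {N : ℕ} {f g : ℕ → ℤ} (h : ∀ m ≤ N, f m = g m) : mx N f = mx N g := by
  unfold mx
  apply sup'_congr _ rfl
  intro m hm
  exact h m (by have := mem_range.1 hm; omega)

theorem dual_le {N : ℕ} {t : ℕ} (c g : Conf N) (o : Row N) :
    (mx N fun m => updH N t (ht t c) o m + ht t g m) ≤
      mx N fun m => ht t c m + updH N t (ht t g) o m := by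
  apply mx_le
  intro m hm
  by_cases h : (t + m) % 2 = 0
  · have key : ∀ {a b : ℤ}, updH N t (ht t c) o m =
        max (ht t c m + if rb o m = true then 1 else 0)
          (max (ht t c (m - 1)) (ht t c (min (m + 1) N))) := by
      intro _ _
      unfold updH
      rw [if_pos h]
    rw [@key 0 0]
    rw [← max_add_add_right, ← max_add_add_right]
    refine max_le ?_ (max_le ?_ ?_)
    · refine le_trans ?_ (le_mx (fun m => ht t c m + updH N t (ht t g) o m) hm)
      simp only [updH]
      rw [if_pos h]
      have := le_max_left (ht t g m + if rb o m = true then 1 else 0)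
        (max (ht t g (m - 1)) (ht t g (min (m + 1) N)))
      linarith
    · refine le_trans ?_ (le_mx (fun m => ht t c m + updH N t (ht t g) o m)
        (show m - 1 ≤ N by omega))
      rcases Nat.eq_zero_or_pos m with h1 | h1
      · subst h1
        have h2 := updH_even g o hm h
        simp only [Nat.zero_sub]
        rw [h2]
        have : 0 ≤ bi (rb o 0 || ((if 0 = 0 then false else cb g (0 - 1)) || cb g 0)) := by
          unfold bi; split_ifs <;> norm_num
        linarith
      · have h3 : ¬ (t + (m - 1)) % 2 = 0 := by omega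
        simp only [updH]
        rw [if_neg h3]
        have h4 := ht_left g h
        have : 0 ≤ bi (if m = 0 then false else cb g (m - 1)) := by
          unfold bi; split_ifs <;> norm_num
        linarith
    · refine le_trans ?_ (le_mx (fun m => ht t c m + updH N t (ht t g) o m)
        (show min (m + 1) N ≤ N from min_le_right _ _))
      have h4 := ht_right g hm h
      have h5 : 0 ≤ bi (cb g m) := by
        unfold bi; split_ifs <;> norm_num
      rcases Nat.lt_or_ge m N with h1 | h1
      · have h6 : min (m + 1) N = m + 1 := by omega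
        rw [h6] at h4 ⊢
        have h3 : ¬ (t + (m + 1)) % 2 = 0 := by omega
        simp only [updH]
        rw [if_neg h3]
        linarith
      · have h7 : m = N := le_antisymm hm h1
        subst h7
        have h6 : min (m + 1) m = m := by omega
        rw [h6]
        have h2 := updH_even g o hm h
        rw [h2]
        have : 0 ≤ bi (rb o m || ((if m = 0 then false else cb g (m - 1)) || cb g m)) := by
          unfold bi; split_ifs <;> norm_num
        linarith
  · refine le_trans ?_ (le_mx (fun m => ht t c m + updH N t (ht t g) o m) hm)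
    simp only [updH]
    rw [if_neg h, if_neg h]

theorem dual : DualStatement := by
  intro N t hN c g o
  have h1 : (mx N fun m => cur t c o + ht (t + 1) (upd t c o) m + ht t g m) =
      mx N fun m => updH N t (ht t c) o m + ht t g m := by
    apply mx_congr
    intro m hm
    rw [updh N t hN c o m hm]
  have h2 : (mx N fun m => ht t c m + (cur t g o + ht (t + 1) (upd t g o) m)) =
      mx N fun m => ht t c m + updH N t (ht t g) o m := by
    apply mx_congr
    intro m hm
    rw [updh N t hN g o m hm]
  rw [h1, h2]
  apply le_antisymm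
  · exact dual_le c g o
  · have h3 := dual_le (t := t) g c o
    have e1 : (mx N fun m => updH N t (ht t g) o m + ht t c m) =
        mx N fun m => ht t c m + updH N t (ht t g) o m :=
      mx_congr fun m _ => add_comm _ _
    have e2 : (mx N fun m => ht t g m + updH N t (ht t c) o m) =
        mx N fun m => updH N t (ht t c) o m + ht t g m :=
      mx_congr fun m _ => add_comm _ _
    rw [e1, e2] at h3
    exact h3

end Pool.Agent.Helper38_Strip.H33
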